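import Pool.Agent.R479.DA.Lim

/-!
# Limsup sets in metric spaces and windows around scaled vectors
-/

set_option autoImplicit false

namespace Pool.Agent.K7.H12.RC

open Filter Topology MeasureTheory Finset
open scoped ENNReal NNReal

/-- **Limsup sets** in a metric space: if the sets `U i` have diameters at most `d i`, and the sum of
the `(d i) ^ D` converges, then the points in infinitely many of the `U i` form a set of dimension at
most `D`. -/
theorem dimH_limsup {X : Type} [EMetricSpace X] [MeasurableSpace X] [BorelSpace X] {ι : Type}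
    [Countable ι] (U : ι → Set X) (d : ι → ℝ) (hd : ∀ i, 0 < d i)
    (hU : ∀ i, Metric.ediam (U i) ≤ ENNReal.ofReal (d i)) {D : ℝ} (hD : 0 < D)
    (hs : Summable fun i => d i ^ D) :
    dimH {x | {i | x ∈ U i}.Infinite} ≤ ENNReal.ofReal D := by
  have hDn : ((Real.toNNReal D : ℝ≥0) : ℝ) = D := Real.coe_toNNReal D hD.le
  have hgoal : ENNReal.ofReal D = ((Real.toNNReal D : ℝ≥0) : ℝ≥0∞) := rfl
  rw [hgoal]
  apply dimH_le_of_hausdorffMeasure_ne_top
  rw [hDn]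
  -- the diameters tend to zero
  have hd0 : Tendsto d cofinite (𝓝 0) := by
    have h1 := hs.tendsto_cofinite_zero
    have h2 : Tendsto (fun i => (d i ^ D) ^ (1 / D)) cofinite (𝓝 (0 ^ (1 / D))) :=
      h1.rpow_const (Or.inr (by positivity))
    rw [Real.zero_rpow (by positivity)] at h2
    refine h2.congr fun i => ?_
    rw [← Real.rpow_mul (hd i).le, mul_one_div_cancel hD.ne', Real.rpow_one]
  set r : Finset ι → ℝ≥0∞ := fun F => ⨆ i : {i // i ∉ F}, ENNReal.ofReal (d i) with hr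
  have hrt : Tendsto r atTop (𝓝 0) := by
    rw [ENNReal.tendsto_nhds_zero]
    intro ε hε
    have h1 := ENNReal.tendsto_ofReal hd0
    rw [ENNReal.ofReal_zero] at h1
    have h2 := h1.eventually (ge_mem_nhds hε)
    rw [Filter.eventually_cofinite] at h2
    filter_upwards [eventually_ge_atTop h2.toFinset] with F hF
    refine iSup_le fun i => ?_
    by_contra hcon
    apply i.2
    apply hF
    rw [Set.Finite.mem_toFinset]
    exact hcon
  have key := Measure.hausdorffMeasure_le_liminf_tsum (X := X) (β := Finset ι)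
    (ι := fun F => {i // i ∉ F}) D {x | {i | x ∈ U i}.Infinite} (l := atTop) r hrt
    (fun F i => U i)
    (Eventually.of_forall fun F i =>
      (hU i).trans (le_iSup (fun i : {i // i ∉ F} => ENNReal.ofReal (d i)) i))
    (Eventually.of_forall fun F x hx => by
      obtain ⟨i, hi, hiF⟩ := hx.exists_notMem_finset F
      rw [Set.mem_iUnion]
      exact ⟨⟨i, hiF⟩, hi⟩)
  refine ne_top_of_le_ne_top ?_ key
  have hnn : ∀ i, 0 ≤ d i ^ D := fun i => Real.rpow_nonneg (hd i).le _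
  have htot : (∑' i, ENNReal.ofReal (d i ^ D)) ≠ ⊤ := by
    rw [← ENNReal.ofReal_tsum_of_nonneg hnn hs]
    exact ENNReal.ofReal_ne_top
  have hbound : ∀ F : Finset ι, (∑' i : {i // i ∉ F}, Metric.ediam (U i) ^ D) ≤
      ∑' i, ENNReal.ofReal (d i ^ D) := by
    intro F
    calc (∑' i : {i // i ∉ F}, Metric.ediam (U i) ^ D)
        ≤ ∑' i : {i // i ∉ F}, ENNReal.ofReal (d i ^ D) := by
          apply ENNReal.tsum_le_tsum
          intro i
          rw [← ENNReal.ofReal_rpow_of_pos (hd i)]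
          exact ENNReal.rpow_le_rpow (hU i) hD.le
      _ ≤ ∑' i, ENNReal.ofReal (d i ^ D) :=
          ENNReal.tsum_comp_le_tsum_of_injective (f := fun i : {i // i ∉ F} => (i : ι))
            Subtype.val_injective (fun i => ENNReal.ofReal (d i ^ D))
  refine ne_top_of_le_ne_top htot ?_
  apply Filter.liminf_le_of_le
  · isBoundedDefault
  · intro b hb
    obtain ⟨n, hn⟩ := hb.exists
    exact hn.trans (hbound n)

variable {S T : Type} [Fintype S]

/-- the vectors `G` for which `u` is within `c v ^ θ` of `v G + P` -/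
def Win (u P : S → ℝ) (v θ c : ℝ) : Set (S → ℝ) :=
  {G | ∀ m, |u m - (v * G m + P m)| ≤ c * v ^ θ}

lemma ediam_Win {u P : S → ℝ} {v θ c : ℝ} (hv : 0 < v) (hc : 0 ≤ c) :
    Metric.ediam (Win u P v θ c) ≤ ENNReal.ofReal (2 * c * v ^ (θ - 1)) := by
  apply Metric.ediam_le
  intro x hx y hy
  rw [edist_dist]
  apply ENNReal.ofReal_le_ofReal
  have h0 : 0 ≤ 2 * c * v ^ (θ - 1) := by positivity
  rw [dist_pi_le_iff h0]
  intro m
  rw [Real.dist_eq]
  have h1 := abs_le.1 (hx m)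
  have h2 := abs_le.1 (hy m)
  have h3 : v * |x m - y m| ≤ 2 * (c * v ^ θ) := by
    rw [← abs_of_pos hv, ← abs_mul, abs_of_pos hv, abs_le]
    constructor <;> nlinarith [h1.1, h1.2, h2.1, h2.2]
  have h4 : v ^ (θ - 1) = v ^ θ / v := by rw [Real.rpow_sub hv, Real.rpow_one]
  rw [h4, ← mul_div_assoc, le_div_iff₀ hv]
  linarith

/-- the exponent of convergence of `v` is at most `τ` -/
def Conv (v : ℕ → ℝ) (τ : ℝ) : Prop := ∀ t : ℝ, τ < t → Summable fun n : ℕ => v n ^ (-t)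

/-- the set of vectors in infinitely many windows has small dimension -/
theorem dim_Win (Bad : Set T) (h : T → ℝ) (u : T → S → ℝ) {v : ℕ → ℝ} (P : ℕ → S → ℝ)
    {s τ θ c : ℝ} (hs : 0 ≤ s) (hτ : 0 ≤ τ) (hθ : θ < 1) (hc : 1 ≤ c) (hv : Conv v τ)
    (hB : ∀ ε : ℝ, 0 < ε → ∃ C : ℝ, ∀ X : ℝ, 1 ≤ X →
      {t | t ∈ Bad ∧ h t ≤ X}.Finite ∧ ({t | t ∈ Bad ∧ h t ≤ X}.ncard : ℝ) ≤ C * X ^ (s + ε)) :
    dimH {G : S → ℝ | {p : ℕ × T | (1 ≤ v p.1 ∧ p.2 ∈ Bad ∧ h p.2 ≤ c * v p.1) ∧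
      G ∈ Win (u p.2) (P p.1) (v p.1) θ c}.Infinite} ≤ ENNReal.ofReal ((s + τ) / (1 - θ)) := by
  classical
  have hθ' : 0 < 1 - θ := by linarith
  apply ENNReal.le_of_forall_pos_le_add
  intro ε hε _
  have hε' : (0 : ℝ) < ε := by exact_mod_cast hε
  rw [← ENNReal.ofReal_coe_nnreal (p := ε), ← ENNReal.ofReal_add (by positivity) hε'.le]
  set D : ℝ := (s + τ) / (1 - θ) + ε with hD
  have hD0 : 0 < D := by positivity
  have hDτ : D * (1 - θ) = s + τ + ε * (1 - θ) := by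
    rw [hD, add_mul, div_mul_cancel₀ _ hθ'.ne']
  set η : ℝ := ε * (1 - θ) / 2 with hη
  have hη0 : 0 < η := by positivity
  obtain ⟨C, hC⟩ := hB η hη0
  have hC0 : 0 ≤ |C| := abs_nonneg C
  -- the index type
  let I : Type := Σ n : {n : ℕ // 1 ≤ v n}, {t : T // t ∈ Bad ∧ h t ≤ c * v n.1}
  have hX : ∀ n : {n : ℕ // 1 ≤ v n}, (1 : ℝ) ≤ c * v n.1 := fun n => by nlinarith [n.2]
  have hfin : ∀ n : {n : ℕ // 1 ≤ v n}, Finite {t : T // t ∈ Bad ∧ h t ≤ c * v n.1} := fun n =>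
    (hC _ (hX n)).1.to_subtype
  have hcount : Countable I := by
    have : ∀ n : {n : ℕ // 1 ≤ v n}, Countable {t : T // t ∈ Bad ∧ h t ≤ c * v n.1} := fun n =>
      Finite.to_countable
    infer_instance
  have hpos : ∀ n : {n : ℕ // 1 ≤ v n}, (0 : ℝ) < v n.1 := fun n => lt_of_lt_of_le one_pos n.2
  have hsum : Summable fun i : I => (2 * c * v i.1.1 ^ (θ - 1)) ^ D := by
    rw [summable_sigma_of_nonneg (fun i => by have := hpos i.1; positivity)]
    constructor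
    · intro n
      have := hfin n
      exact Summable.of_finite
    · have hv' := (hv (τ + η) (by linarith)).comp_injective
        (Subtype.val_injective : Function.Injective (Subtype.val : {n : ℕ // 1 ≤ v n} → ℕ))
      refine Summable.of_nonneg_of_le (fun n => tsum_nonneg fun t => by
        have := hpos n; positivity) (fun n => ?_) (hv'.mul_left (|C| * c ^ (s + η) * (2 * c) ^ D))
      have hn0 := hpos n
      have := hfin n
      have := Fintype.ofFinite {t : T // t ∈ Bad ∧ h t ≤ c * v n.1}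
      rw [tsum_fintype]
      simp only [Function.comp]
      rw [Finset.sum_const, nsmul_eq_mul, Finset.card_univ]
      have h1 : ((Fintype.card {t : T // t ∈ Bad ∧ h t ≤ c * v n.1} : ℕ) : ℝ) ≤
          |C| * (c * v n.1) ^ (s + η) := by
        have h2 := (hC _ (hX n)).2
        have h3 : {t | t ∈ Bad ∧ h t ≤ c * v n.1}.ncard =
            Fintype.card {t : T // t ∈ Bad ∧ h t ≤ c * v n.1} := by
          rw [← Nat.card_coe_set_eq]
          change Nat.card {t : T // t ∈ Bad ∧ h t ≤ c * v n.1} = _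
          exact Nat.card_eq_fintype_card
        rw [← h3]
        refine h2.trans (mul_le_mul_of_nonneg_right (le_abs_self C) ?_)
        have := hX n
        positivity
      have e1 : (2 * c * v n.1 ^ (θ - 1)) ^ D = (2 * c) ^ D * (v n.1) ^ ((θ - 1) * D) := by
        rw [Real.mul_rpow (by positivity) (by positivity), ← Real.rpow_mul hn0.le]
      have e2 : (c * v n.1) ^ (s + η) = c ^ (s + η) * (v n.1) ^ (s + η) :=
        Real.mul_rpow (by positivity) hn0.le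
      have e3 : (v n.1) ^ (s + η) * (v n.1) ^ ((θ - 1) * D) = (v n.1) ^ (-(τ + η)) := by
        rw [← Real.rpow_add hn0]
        congr 1
        have : (θ - 1) * D = -(D * (1 - θ)) := by ring
        rw [this, hDτ, hη]
        ring
      calc ((Fintype.card {t : T // t ∈ Bad ∧ h t ≤ c * v n.1} : ℕ) : ℝ) *
            (2 * c * v n.1 ^ (θ - 1)) ^ D
          ≤ (|C| * (c * v n.1) ^ (s + η)) * (2 * c * v n.1 ^ (θ - 1)) ^ D :=
            mul_le_mul_of_nonneg_right h1 (by positivity)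
        _ = |C| * c ^ (s + η) * (2 * c) ^ D *
              ((v n.1) ^ (s + η) * (v n.1) ^ ((θ - 1) * D)) := by rw [e1, e2]; ring
        _ = |C| * c ^ (s + η) * (2 * c) ^ D * (v n.1) ^ (-(τ + η)) := by rw [e3]
  have h1 := dimH_limsup (ι := I) (fun i => Win (u i.2.1) (P i.1.1) (v i.1.1) θ c)
    (fun i => 2 * c * v i.1.1 ^ (θ - 1)) (fun i => by have := hpos i.1; positivity)
    (fun i => ediam_Win (hpos i.1) (by linarith)) hD0 hsum
  refine le_trans (dimH_mono ?_) h1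
  intro G hG hfi
  apply hG
  have hinj : {p : ℕ × T | (1 ≤ v p.1 ∧ p.2 ∈ Bad ∧ h p.2 ≤ c * v p.1) ∧
      G ∈ Win (u p.2) (P p.1) (v p.1) θ c} ⊆
      (fun i : I => ((i.1.1, i.2.1) : ℕ × T)) '' {i | G ∈ Win (u i.2.1) (P i.1.1) (v i.1.1) θ c} := by
    rintro ⟨n, t⟩ ⟨⟨h2, h3, h4⟩, h5⟩
    exact ⟨⟨⟨n, h2⟩, ⟨t, h3, h4⟩⟩, h5, rfl⟩
  exact (hfi.image _).subset hinj

lemma large {v : ℕ → ℝ} (hv0 : ∀ n, 0 < v n) {τ : ℝ} (hτ : 0 ≤ τ) (hv : Conv v τ) (M : ℝ) :
    ∀ᶠ n in atTop, M ≤ v n := by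
  have hM : 0 < max M 1 := lt_of_lt_of_le one_pos (le_max_right _ _)
  have hs := hv (τ + 1) (by linarith)
  have h1 := hs.tendsto_atTop_zero.eventually
    (gt_mem_nhds (show 0 < (max M 1) ^ (-(τ + 1)) by positivity))
  filter_upwards [h1] with n hn
  by_contra hcon
  push Not at hcon
  have h2 : v n ≤ max M 1 := hcon.le.trans (le_max_left _ _)
  exact absurd hn (not_lt.2 (Real.rpow_le_rpow_of_nonpos (hv0 n) h2 (by linarith)))

/-- **Windows around scaled vectors.** -/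
theorem windows (Bad : Set T) (h : T → ℝ) (u : T → S → ℝ) {v : ℕ → ℝ} (P : ℕ → S → ℝ)
    {s τ θ : ℝ} (hs : 0 ≤ s) (hτ : 0 ≤ τ) (hθ : θ < 1) (hv0 : ∀ n, 0 < v n) (hv : Conv v τ)
    (hB : ∀ ε : ℝ, 0 < ε → ∃ C : ℝ, ∀ X : ℝ, 1 ≤ X →
      {t | t ∈ Bad ∧ h t ≤ X}.Finite ∧ ({t | t ∈ Bad ∧ h t ≤ X}.ncard : ℝ) ≤ C * X ^ (s + ε)) :
    ∃ E : Set (S → ℝ), dimH E ≤ ENNReal.ofReal ((s + τ) / (1 - θ)) ∧
      ∀ G ∉ E, ∀ c : ℝ, ∃ n₀ : ℕ, ∀ n : ℕ, n₀ ≤ n → ∀ t ∈ Bad, h t ≤ c * v n →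
        G ∉ Win (u t) (P n) (v n) θ c := by
  classical
  refine ⟨⋃ K : ℕ, {G : S → ℝ | {p : ℕ × T | (1 ≤ v p.1 ∧ p.2 ∈ Bad ∧
    h p.2 ≤ ((K : ℝ) + 1) * v p.1) ∧
      G ∈ Win (u p.2) (P p.1) (v p.1) θ ((K : ℝ) + 1)}.Infinite}, ?_, ?_⟩
  · rw [dimH_iUnion]
    refine iSup_le fun K => ?_
    have hK : (0 : ℝ) ≤ K := Nat.cast_nonneg K
    exact dim_Win Bad h u P hs hτ hθ (by linarith) hv hB
  · intro G hG c
    obtain ⟨K, hK⟩ := exists_nat_ge c
    have hfin : ¬ {p : ℕ × T | (1 ≤ v p.1 ∧ p.2 ∈ Bad ∧ h p.2 ≤ ((K : ℝ) + 1) * v p.1) ∧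
      G ∈ Win (u p.2) (P p.1) (v p.1) θ ((K : ℝ) + 1)}.Infinite := fun hi =>
      hG (Set.mem_iUnion.2 ⟨K, hi⟩)
    rw [Set.not_infinite] at hfin
    obtain ⟨n1, hn1⟩ := eventually_atTop.1 (large hv0 hτ hv 1)
    refine ⟨max n1 ((hfin.toFinset.image Prod.fst).sup id + 1), fun n hn t ht htn hW => ?_⟩
    have h1 := hn1 n ((le_max_left _ _).trans hn)
    have hv0n := hv0 n
    have hmem : (n, t) ∈ hfin.toFinset := by
      rw [Set.Finite.mem_toFinset]
      refine ⟨⟨h1, ht, htn.trans ?_⟩, fun m => (hW m).trans ?_⟩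
      · exact mul_le_mul_of_nonneg_right (by linarith) hv0n.le
      · exact mul_le_mul_of_nonneg_right (by linarith) (by positivity)
    have h2 : n ≤ (hfin.toFinset.image Prod.fst).sup id :=
      Finset.le_sup (f := id) (Finset.mem_image_of_mem Prod.fst hmem)
    have h3 := (le_max_right _ _).trans hn
    omega

/-- sets of small dimension are null sets -/
theorem null_of_dim {E : Set (S → ℝ)} {D : ℝ} (hE : dimH E ≤ ENNReal.ofReal D) (hD0 : 0 ≤ D)
    (hD : D < Fintype.card S) : volume E = 0 := by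
  rw [← MeasureTheory.hausdorffMeasure_pi_real]
  have h1 : dimH E < ((Fintype.card S : ℝ≥0) : ℝ≥0∞) := by
    refine lt_of_le_of_lt hE ?_
    rw [ENNReal.ofReal_lt_iff_lt_toReal hD0 (by simp)]
    simpa using hD
  have h2 := hausdorffMeasure_of_dimH_lt h1
  simpa using h2

lemma one_add_pow_le {x : ℝ} (hx : 0 ≤ x) (hx1 : x ≤ 1) (K : ℕ) : (1 + x) ^ K ≤ 1 + 3 ^ K * x := by
  induction K with
  | zero => simpa using hx
  | succ K ih =>
    have h3 : (1 : ℝ) ≤ 3 ^ K := one_le_pow₀ (by norm_num)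
    calc (1 + x) ^ (K + 1) = (1 + x) ^ K * (1 + x) := pow_succ _ _
      _ ≤ (1 + 3 ^ K * x) * (1 + x) := mul_le_mul_of_nonneg_right ih (by linarith)
      _ = 1 + (1 + 3 ^ K + 3 ^ K * x) * x := by ring
      _ ≤ 1 + (3 ^ K + 3 ^ K + 3 ^ K * 1) * x := by gcongr
      _ = 1 + 3 ^ (K + 1) * x := by ring

/-- **Windows around all multiples of a vector.** -/
theorem rays (Bad : Set T) (h : T → ℝ) (u : T → S → ℝ) {s θ : ℝ} (hs : 0 ≤ s) (hθ : θ < 1)
    (hB : ∀ ε : ℝ, 0 < ε → ∃ C : ℝ, ∀ X : ℝ, 1 ≤ X →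
      {t | t ∈ Bad ∧ h t ≤ X}.Finite ∧ ({t | t ∈ Bad ∧ h t ≤ X}.ncard : ℝ) ≤ C * X ^ (s + ε)) :
    ∃ E : Set (S → ℝ), dimH E ≤ ENNReal.ofReal (1 + s / (1 - θ)) ∧
      ∀ G ∉ E, ∀ c : ℝ, ∃ r₀ : ℝ, 1 ≤ r₀ ∧ ∀ r : ℝ, r₀ ≤ r → ∀ t ∈ Bad, h t ≤ c * r →
        ¬ ∀ m, |u t m - r * G m| ≤ c * r ^ θ := by
  have ha : 0 < 1 - θ := by linarith
  set β : ℝ := 1 / (1 - θ) with hβ
  have hβ0 : 0 < β := by positivity
  have haβ : (1 - θ) * β = 1 := by rw [hβ]; field_simp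
  set v : ℕ → ℝ := fun j => ((j : ℝ) + 1) ^ β with hvdef
  have hv0 : ∀ n, 0 < v n := fun n => by positivity
  have hv : Conv v (1 - θ) := by
    intro t ht
    have h1 : Summable fun n : ℕ => ((n : ℝ)) ^ (-(β * t)) := by
      rw [Real.summable_nat_rpow]
      have : 1 < β * t := by
        rw [← haβ, mul_comm (1 - θ)]
        exact mul_lt_mul_of_pos_left ht hβ0
      linarith
    have h2 := (summable_nat_add_iff 1).2 h1
    refine h2.congr fun n => ?_
    simp only [hvdef]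
    rw [← Real.rpow_mul (by positivity)]
    push_cast
    congr 1
    ring
  obtain ⟨E, hE, hE'⟩ := windows Bad h u (fun _ _ => 0) hs ha.le hθ hv0 hv hB
  refine ⟨E, hE.trans (ENNReal.ofReal_le_ofReal ?_), fun G hG c => ?_⟩
  · rw [add_div, div_self ha.ne']
    linarith
  obtain ⟨K, hK⟩ := exists_nat_ge β
  obtain ⟨A, hA⟩ : ∃ A : ℝ, A = 3 ^ K := ⟨_, rfl⟩
  have hA1 : 1 ≤ A := by rw [hA]; exact one_le_pow₀ (by norm_num)
  obtain ⟨g, hg⟩ : ∃ g : ℝ, g = ‖G‖ := ⟨_, rfl⟩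
  have hg0 : 0 ≤ g := by rw [hg]; exact norm_nonneg _
  have hGg : ∀ m, |G m| ≤ g := fun m => by
    rw [hg, ← Real.norm_eq_abs]
    exact norm_le_pi_norm G m
  obtain ⟨n₀, hn₀⟩ := hE' G hG (|c| * (1 + A) + A * g)
  refine ⟨((n₀ : ℝ) + 2) ^ β, Real.one_le_rpow (by
    have : (0 : ℝ) ≤ n₀ := Nat.cast_nonneg _
    linarith) hβ0.le, fun r hr t ht hht hnear => ?_⟩
  have hr1 : 1 ≤ r := le_trans (Real.one_le_rpow (by
    have : (0 : ℝ) ≤ n₀ := Nat.cast_nonneg _
    linarith) hβ0.le) hr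
  have hr0 : 0 < r := by linarith
  -- the index
  have hra : (n₀ : ℝ) + 2 ≤ r ^ (1 - θ) := by
    calc (n₀ : ℝ) + 2 = (((n₀ : ℝ) + 2) ^ β) ^ (1 - θ) := by
          rw [← Real.rpow_mul (by positivity), mul_comm β, haβ, Real.rpow_one]
      _ ≤ r ^ (1 - θ) := Real.rpow_le_rpow (by positivity) hr ha.le
  obtain ⟨N, hN⟩ : ∃ N : ℕ, N = ⌊r ^ (1 - θ)⌋₊ := ⟨_, rfl⟩
  have hN1 : (N : ℝ) ≤ r ^ (1 - θ) := by rw [hN]; exact Nat.floor_le (by positivity)
  have hN2 : r ^ (1 - θ) < N + 1 := by rw [hN]; exact Nat.lt_floor_add_one _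
  have hN3 : n₀ + 2 ≤ N := by
    rw [hN]
    apply Nat.le_floor
    push_cast
    exact hra
  obtain ⟨j, rfl⟩ : ∃ j : ℕ, N = j + 1 := ⟨N - 1, by omega⟩
  have hj0 : (0 : ℝ) < (j : ℝ) + 1 := by positivity
  push_cast at hN1 hN2
  have hvj : v j = ((j : ℝ) + 1) ^ β := rfl
  have hrβ : (r ^ (1 - θ)) ^ β = r := by
    rw [← Real.rpow_mul hr0.le, haβ, Real.rpow_one]
  have hvr : v j ≤ r := by
    rw [hvj, ← hrβ]
    exact Real.rpow_le_rpow hj0.le hN1 hβ0.le
  have hv1 : 1 ≤ v j := by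
    rw [hvj]
    exact Real.one_le_rpow (by
      have : (0 : ℝ) ≤ j := Nat.cast_nonneg _
      linarith) hβ0.le
  have hvθ : v j = ((j : ℝ) + 1) * v j ^ θ := by
    have e1 : v j ^ (1 - θ) = (j : ℝ) + 1 := by
      rw [hvj, ← Real.rpow_mul hj0.le, mul_comm β, haβ, Real.rpow_one]
    rw [← e1, ← Real.rpow_add (hv0 j), show 1 - θ + θ = 1 by ring, Real.rpow_one]
  have hvθ0 : 0 < v j ^ θ := by have := hv0 j; positivity
  have hdiff : r - v j ≤ A * v j ^ θ := by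
    have h1 : r ≤ (((j : ℝ) + 1) * (1 + 1 / ((j : ℝ) + 1))) ^ β := by
      rw [← hrβ]
      refine Real.rpow_le_rpow (by positivity) ?_ hβ0.le
      rw [mul_add, mul_one, mul_one_div_cancel hj0.ne']
      exact hN2.le
    rw [Real.mul_rpow hj0.le (by positivity), ← hvj] at h1
    have hx0 : (0 : ℝ) ≤ 1 / ((j : ℝ) + 1) := by positivity
    have hx1 : 1 / ((j : ℝ) + 1) ≤ 1 := by
      rw [div_le_one hj0]
      have : (0 : ℝ) ≤ j := Nat.cast_nonneg _
      linarith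
    have h2 : (1 + 1 / ((j : ℝ) + 1)) ^ β ≤ 1 + A * (1 / ((j : ℝ) + 1)) := by
      calc (1 + 1 / ((j : ℝ) + 1)) ^ β ≤ (1 + 1 / ((j : ℝ) + 1)) ^ (K : ℝ) :=
            Real.rpow_le_rpow_of_exponent_le (by linarith) hK
        _ = (1 + 1 / ((j : ℝ) + 1)) ^ K := Real.rpow_natCast _ _
        _ ≤ 1 + A * (1 / ((j : ℝ) + 1)) := by
            rw [hA]
            exact one_add_pow_le hx0 hx1 K
    have h3 : r ≤ v j * (1 + A * (1 / ((j : ℝ) + 1))) :=
      h1.trans (mul_le_mul_of_nonneg_left h2 (hv0 j).le)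
    have h4 : v j * (1 / ((j : ℝ) + 1)) = v j ^ θ := by
      rw [mul_one_div, div_eq_iff hj0.ne', mul_comm]
      exact hvθ
    have h5 : v j * (1 + A * (1 / ((j : ℝ) + 1))) = v j + A * v j ^ θ := by
      rw [← h4]; ring
    linarith
  have hvθle : v j ^ θ ≤ v j := by
    conv_rhs => rw [← Real.rpow_one (v j)]
    exact Real.rpow_le_rpow_of_exponent_le hv1 hθ.le
  have hrv : r ≤ (1 + A) * v j := by nlinarith
  have hrθ : r ^ θ ≤ (1 + A) * v j ^ θ := by
    rcases le_or_gt 0 θ with h0 | h0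
    · calc r ^ θ ≤ ((1 + A) * v j) ^ θ := Real.rpow_le_rpow hr0.le hrv h0
        _ = (1 + A) ^ θ * v j ^ θ := Real.mul_rpow (by linarith) (hv0 j).le
        _ ≤ (1 + A) * v j ^ θ := by
            apply mul_le_mul_of_nonneg_right _ hvθ0.le
            conv_rhs => rw [← Real.rpow_one (1 + A)]
            exact Real.rpow_le_rpow_of_exponent_le (by linarith) hθ.le
    · calc r ^ θ ≤ v j ^ θ := Real.rpow_le_rpow_of_nonpos (hv0 j) hvr h0.le
        _ ≤ (1 + A) * v j ^ θ := by nlinarith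
  have hc0 := abs_nonneg c
  have hcc := le_abs_self c
  refine hn₀ j (by omega) t ht ?_ fun m => ?_
  · calc h t ≤ c * r := hht
      _ ≤ |c| * r := mul_le_mul_of_nonneg_right hcc hr0.le
      _ ≤ |c| * ((1 + A) * v j) := mul_le_mul_of_nonneg_left hrv hc0
      _ ≤ (|c| * (1 + A) + A * g) * v j := by
          have : 0 ≤ A * g * v j := by have := hv0 j; positivity
          nlinarith
  · have h1 := hnear m
    have h2 : |u t m - (v j * G m + 0)| ≤ |u t m - r * G m| + |(r - v j) * G m| := by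
      have : u t m - (v j * G m + 0) = (u t m - r * G m) + (r - v j) * G m := by ring
      rw [this]
      exact abs_add_le _ _
    have h3 : |(r - v j) * G m| ≤ A * v j ^ θ * g := by
      rw [abs_mul, abs_of_nonneg (by linarith : 0 ≤ r - v j)]
      exact mul_le_mul hdiff (hGg m) (abs_nonneg _) (by positivity)
    have h4 : c * r ^ θ ≤ |c| * ((1 + A) * v j ^ θ) :=
      mul_le_mul hcc hrθ (by positivity) hc0
    calc |u t m - (v j * G m + 0)| ≤ |u t m - r * G m| + |(r - v j) * G m| := h2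
      _ ≤ |c| * ((1 + A) * v j ^ θ) + A * v j ^ θ * g := by linarith
      _ = (|c| * (1 + A) + A * g) * v j ^ θ := by ring

end Pool.Agent.K7.H12.RC
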